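import Mathlib

set_option autoImplicit false

namespace Pool.Agent.Results.MP_e0e877_co.PaletteMonotoneAGame

universe u

variable {V : Type u} [Fintype V] [DecidableEq V]

/-- A position of the domatic number game with palette `Fin k`: every vertex is either not yet
coloured (`none`) or has one of the `k` colours. -/
abbrev Position (V : Type u) (k : ℕ) : Type u := V → Option (Fin k)

/-- Alice's goal: every closed neighbourhood contains every colour of the palette. -/
def Dominated (G : SimpleGraph V) (k : ℕ) (p : Position V k) : Prop :=
  ∀ x : V, ∀ c : Fin k, ∃ y : V, (y = x ∨ G.Adj x y) ∧ p y = some c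

/-- `AliceWins G k n a p`: Alice has a winning strategy from position `p`, in which `n` vertices
are still to be coloured and Alice is to move iff `a = true`. -/
def AliceWins (G : SimpleGraph V) (k : ℕ) : ℕ → Bool → Position V k → Prop
  | 0, _, p => Dominated G k p
  | n + 1, true, p =>
      ∃ (v : V) (c : Fin k), p v = none ∧ AliceWins G k n false (Function.update p v (some c))
  | n + 1, false, p =>
      ∀ (v : V) (c : Fin k), p v = none → AliceWins G k n true (Function.update p v (some c))

/-- `BobWins G k n a p`: Bob has a winning strategy from position `p`, in which `n` vertices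
are still to be coloured and Alice is to move iff `a = true`. -/
def BobWins (G : SimpleGraph V) (k : ℕ) : ℕ → Bool → Position V k → Prop
  | 0, _, p => ¬ Dominated G k p
  | n + 1, true, p =>
      ∀ (v : V) (c : Fin k), p v = none → BobWins G k n false (Function.update p v (some c))
  | n + 1, false, p =>
      ∃ (v : V) (c : Fin k), p v = none ∧ BobWins G k n true (Function.update p v (some c))

/-- Alice has a winning strategy in the A-game (Alice moves first) with palette of size `k`. -/
def AliceWinsAGame (G : SimpleGraph V) (k : ℕ) : Prop :=
  AliceWins G k (Fintype.card V) true (fun _ => none)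

/-- Bob has a winning strategy in the A-game (Alice moves first) with palette of size `k`. -/
def BobWinsAGame (G : SimpleGraph V) (k : ℕ) : Prop :=
  BobWins G k (Fintype.card V) true (fun _ => none)

omit [Fintype V] in
theorem not_both (G : SimpleGraph V) (k : ℕ) :
    ∀ (n : ℕ) (a : Bool) (p : Position V k), BobWins G k n a p → ¬ AliceWins G k n a p := by
  intro n
  induction n with
  | zero =>
    intro a p hb ha
    cases a <;> exact hb ha
  | succ n ih =>
    intro a p hb ha
    cases a with
    | true =>
      obtain ⟨v, c, hv, hw⟩ := ha
      exact ih false _ (hb v c hv) hw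
    | false =>
      obtain ⟨v, c, hv, hw⟩ := hb
      exact ih true _ hw (ha v c hv)

/-- The relation between the real position (palette `k`) and Alice's imagined position
(palette `k + 1`): the same vertices are coloured, and colours below `k` agree. -/
def Rel (k : ℕ) (p : Position V k) (q : Position V (k + 1)) : Prop :=
  ∀ v : V, (q v = none ↔ p v = none) ∧ ∀ c : Fin k, q v = some c.castSucc → p v = some c

/-- Collapse the extra colour onto some colour of the smaller palette. -/
def collapse (k : ℕ) (hk : 1 ≤ k) (c : Fin (k + 1)) : Fin k :=
  if h : (c : ℕ) < k then ⟨c, h⟩ else ⟨0, hk⟩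

omit [Fintype V] in
theorem rel_update {k : ℕ} {p : Position V k} {q : Position V (k + 1)} (h : Rel k p q)
    (v : V) (c : Fin k) (d : Fin (k + 1)) (hcd : ∀ e : Fin k, d = e.castSucc → c = e) :
    Rel k (Function.update p v (some c)) (Function.update q v (some d)) := by
  intro w
  by_cases hw : w = v
  · subst hw
    simp only [Function.update_self]
    refine ⟨by simp, ?_⟩
    intro e he
    have : d = e.castSucc := by simpa using he
    rw [hcd e this]
  · simp only [Function.update_of_ne hw]
    exact h w

omit [Fintype V] in
theorem simulate (G : SimpleGraph V) (k : ℕ) (hk : 1 ≤ k) :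
    ∀ (n : ℕ) (a : Bool) (p : Position V k) (q : Position V (k + 1)), Rel k p q →
      AliceWins G (k + 1) n a q → AliceWins G k n a p := by
  intro n
  induction n with
  | zero =>
    intro a p q hpq hq
    have key : Dominated G (k + 1) q → Dominated G k p := by
      intro hd x c
      obtain ⟨y, hy, hc⟩ := hd x c.castSucc
      exact ⟨y, hy, (hpq y).2 c hc⟩
    cases a <;> exact key hq
  | succ n ih =>
    intro a p q hpq hq
    cases a with
    | true =>
      obtain ⟨v, d, hv, hw⟩ := hq
      refine ⟨v, collapse k hk d, (hpq v).1.1 hv, ?_⟩
      refine ih false _ _ (rel_update hpq v _ d ?_) hw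
      intro e he
      subst he
      unfold collapse
      have : ((e.castSucc : Fin (k + 1)) : ℕ) < k := by simp
      rw [dif_pos this]
      ext
      simp
    | false =>
      intro v c hv
      refine ih true _ _ (rel_update hpq v c c.castSucc ?_) (hq v c.castSucc ((hpq v).1.2 hv))
      intro e he
      exact Fin.castSucc_injective k he

/-- Q1: no finite graph admits a palette size `k ≥ 1` for which the A-game with palette `[k]` is a
Bob win while the A-game with palette `[k+1]` is an Alice win. -/
theorem result :
    ¬ ∃ (V : Type u) (_ : Fintype V) (_ : DecidableEq V) (G : SimpleGraph V) (k : ℕ),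
      1 ≤ k ∧ BobWinsAGame G k ∧ AliceWinsAGame G (k + 1) := by
  rintro ⟨V, _, _, G, k, hk, hb, ha⟩
  refine not_both G k _ _ _ hb (simulate G k hk _ _ _ _ ?_ ha)
  intro v
  exact ⟨by simp, by simp⟩

end Pool.Agent.Results.MP_e0e877_co.PaletteMonotoneAGame
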